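import Pool.Agent.helper81.PJ.Spec

set_option autoImplicit false

namespace Pool.Agent.PJ

open Finset Pool.Agent.PY2

theorem NU2_one (p : ℕ) [Fact p.Prime] (B : Finset (ZMod p)) (u m : ZMod p) (hu : u ≠ 0) (G : ZMod p → ℝ) :
    ∑ w ∈ B, G ((m + w) / u) = ∑ x : ZMod p, if u * x - m ∈ B then G x else 0 := by
  rw [← Finset.sum_filter]
  refine Finset.sum_nbij' (fun w => (m + w) / u) (fun x => u * x - m) ?_ ?_ ?_ ?_ ?_
  · intro w hw
    rw [mem_filter]
    refine ⟨mem_univ _, ?_⟩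
    have h1 : u * ((m + w) / u) - m = w := by
      rw [mul_div_cancel₀ _ hu]
      ring
    rw [h1]
    exact hw
  · intro x hx
    exact (mem_filter.mp hx).2
  · intro w _
    show u * ((m + w) / u) - m = w
    rw [mul_div_cancel₀ _ hu]
    ring
  · intro x _
    show (m + (u * x - m)) / u = x
    have h1 : m + (u * x - m) = u * x := by ring
    rw [h1, mul_div_cancel_left₀ _ hu]
  · intro w _
    rfl

theorem NU2_two (p : ℕ) [Fact p.Prime] (B : Finset (ZMod p)) (u m : ZMod p) (hu : u ≠ 0)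
    (G : ZMod p → ZMod p → ℝ) :
    ∑ z ∈ B ×ˢ B, G ((m + z.1) / u) ((m + z.2) / u)
      = ∑ x : ZMod p, ∑ y : ZMod p, if u * x - m ∈ B ∧ u * y - m ∈ B then G x y else 0 := by
  rw [Finset.sum_product, NU2_one p B u m hu (fun x => ∑ w ∈ B, G x ((m + w) / u))]
  refine Finset.sum_congr rfl ?_
  intro x _
  rw [NU2_one p B u m hu (fun y => G x y)]
  by_cases h : u * x - m ∈ B
  · rw [if_pos h]
    refine Finset.sum_congr rfl ?_
    intro y _
    by_cases h' : u * y - m ∈ B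
    · rw [if_pos h', if_pos ⟨h, h'⟩]
    · rw [if_neg h', if_neg (fun hh => h' hh.2)]
  · rw [if_neg h]
    symm
    refine Finset.sum_eq_zero ?_
    intro y _
    rw [if_neg (fun hh => h hh.1)]

theorem NU2 (hMAX : MAX_stmt) (hSH2 : SH2_stmt) : NU2_stmt := by
  intro p _ χ k N U n B hk hU hN
  have hu0 : ∀ u ∈ Ioc U (2 * U), (u : ZMod p) ≠ 0 := by
    intro u hu h
    rw [mem_Ioc] at hu
    rw [ZMod.natCast_eq_zero_iff] at h
    have := Nat.le_of_dvd (by omega) h
    omega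
  have hL : (U : ℝ) * (2 : ℝ) ^ n * ∑ z ∈ B ×ˢ B, ‖Gc χ N z.1 z.2‖
      = ∑ u ∈ Ioc U (2 * U), ∑ z ∈ B ×ˢ B, (2 : ℝ) ^ n * ‖Gc χ N z.1 z.2‖ := by
    rw [sum_const, Nat.card_Ioc, nsmul_eq_mul, ← mul_sum]
    have h1 : 2 * U - U = U := by omega
    rw [h1]
    ring
  have hR : ∑ x : ZMod p, ∑ y : ZMod p, (nu2 B (2 * N) U x y : ℝ) * mj k n (c2 χ x y)
      = ∑ u ∈ Ioc U (2 * U), ∑ m ∈ range (2 * N), ∑ x : ZMod p, ∑ y : ZMod p,
        if (u : ZMod p) * x - (m : ZMod p) ∈ B ∧ (u : ZMod p) * y - (m : ZMod p) ∈ B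
          then mj k n (c2 χ x y) else 0 := by
    have h1 : ∀ x y : ZMod p, (nu2 B (2 * N) U x y : ℝ) * mj k n (c2 χ x y)
        = ∑ u ∈ Ioc U (2 * U), ∑ m ∈ range (2 * N),
          if (u : ZMod p) * x - (m : ZMod p) ∈ B ∧ (u : ZMod p) * y - (m : ZMod p) ∈ B
            then mj k n (c2 χ x y) else 0 := by
      intro x y
      unfold nu2
      push_cast
      rw [sum_mul]
      refine Finset.sum_congr rfl ?_
      intro u _
      rw [sum_mul]
      refine Finset.sum_congr rfl ?_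
      intro m _
      rw [ite_mul, one_mul, zero_mul]
    calc ∑ x : ZMod p, ∑ y : ZMod p, (nu2 B (2 * N) U x y : ℝ) * mj k n (c2 χ x y)
        = ∑ x : ZMod p, ∑ y : ZMod p, ∑ u ∈ Ioc U (2 * U), ∑ m ∈ range (2 * N),
          (if (u : ZMod p) * x - (m : ZMod p) ∈ B ∧ (u : ZMod p) * y - (m : ZMod p) ∈ B
            then mj k n (c2 χ x y) else 0) := by
          refine Finset.sum_congr rfl fun x _ => Finset.sum_congr rfl fun y _ => h1 x y
      _ = ∑ x : ZMod p, ∑ u ∈ Ioc U (2 * U), ∑ m ∈ range (2 * N), ∑ y : ZMod p,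
          (if (u : ZMod p) * x - (m : ZMod p) ∈ B ∧ (u : ZMod p) * y - (m : ZMod p) ∈ B
            then mj k n (c2 χ x y) else 0) := by
          refine Finset.sum_congr rfl fun x _ => ?_
          rw [Finset.sum_comm]
          refine Finset.sum_congr rfl fun u _ => ?_
          rw [Finset.sum_comm]
      _ = _ := by
          rw [Finset.sum_comm]
          refine Finset.sum_congr rfl fun u _ => ?_
          rw [Finset.sum_comm]
  rw [hL, hR]
  refine Finset.sum_le_sum ?_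
  intro u hu
  have hu' := mem_Ioc.mp hu
  have hcond : 2 ^ n * u ≤ N := (Nat.mul_le_mul_left _ hu'.2).trans hN
  calc ∑ z ∈ B ×ˢ B, (2 : ℝ) ^ n * ‖Gc χ N z.1 z.2‖
      ≤ ∑ z ∈ B ×ˢ B, ∑ m ∈ range (2 * N),
        mj k n (c2 χ (((m : ZMod p) + z.1) / (u : ZMod p)) (((m : ZMod p) + z.2) / (u : ZMod p))) := by
        refine Finset.sum_le_sum ?_
        intro z _
        exact hSH2 p χ k N n u z.1 z.2 hk (by omega) (by omega) hcond
    _ = ∑ m ∈ range (2 * N), ∑ z ∈ B ×ˢ B,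
        mj k n (c2 χ (((m : ZMod p) + z.1) / (u : ZMod p)) (((m : ZMod p) + z.2) / (u : ZMod p))) :=
        Finset.sum_comm
    _ = _ := by
        refine Finset.sum_congr rfl ?_
        intro m _
        exact NU2_two p B (u : ZMod p) (m : ZMod p) (hu0 u hu) (fun x y => mj k n (c2 χ x y))
    _ ≤ _ := le_refl _

end Pool.Agent.PJ
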